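import Mathlib
import Pool.Agent.H55.Unif

/-! Under `◇⁺` no almost Suslin tree carries Suslin uniformizations of all monochromatic
colourings of a ladder system. -/

namespace Pool.Agent.Results.MP_b963f4_lc.NoAlmostSuslin

open Set
open Cardinal hiding univ

universe u

/-- the well-order `ω₁` of the countable ordinals -/
abbrev W : Type := (ℵ_ 1 : Cardinal.{0}).ord.ToType

/-- the principle `◇⁺` -/
def DiamondPlus : Prop :=
  ∃ 𝒲 : W → Set (Set W), (∀ α, (𝒲 α).Countable) ∧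
    ∀ X : Set W, ∃ D : Set W, IsClub D ∧ ∀ α ∈ D, X ∩ Iio α ∈ 𝒲 α ∧ D ∩ Iio α ∈ 𝒲 α

/-- the level `T_α`: nodes whose set of predecessors has order type `α` -/
def level (T : Type u) [PartialOrder T] (α : W) : Set T := {t | Nonempty (Iio t ≃o Iio α)}

/-- Aronszajn trees: height `ω₁`, countable levels, no uncountable chain -/
def Aronszajn (T : Type u) [PartialOrder T] : Prop :=
  (∀ t : T, ∃ α, t ∈ level T α) ∧ (∀ α, (level T α).Nonempty) ∧ (∀ α, (level T α).Countable) ∧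
    ∀ B : Set T, IsChain (· ≤ ·) B → B.Countable

/-- Suslin subtrees: downward closed, uncountable, no uncountable chain or antichain -/
def SuslinSubtree {T : Type u} [PartialOrder T] (S : Set T) : Prop :=
  IsLowerSet S ∧ ¬ S.Countable ∧ (∀ B ⊆ S, IsChain (· ≤ ·) B → B.Countable) ∧
    ∀ A ⊆ S, IsAntichain (· ≤ ·) A → A.Countable

/-- ladder systems -/
def Ladder (C : W → Set W) : Prop :=
  ∀ α, Order.IsSuccLimit α →
    C α ⊆ Iio α ∧ (∀ β < α, ∃ ξ ∈ C α, β ≤ ξ) ∧ Nonempty (C α ≃o ℕ)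

/-- every monochromatic `ω`-colouring of `C` (with colour `f α` on `C α`) has a Suslin
`T`-uniformization -/
def SuslinUnif (T : Type u) [PartialOrder T] (C : W → Set W) : Prop :=
  ∀ f : W → ℕ, ∃ S : Set T, SuslinSubtree S ∧ ∃ h : S → ℕ,
    ∀ α, Order.IsSuccLimit α → ∀ s ∈ S, s ∈ level T α →
      {ξ ∈ C α | ∃ t : S, t.1 < s ∧ t.1 ∈ level T ξ ∧ h t ≠ f α}.Finite

open Pool.Agent.H55

theorem wd (h : DiamondPlus) : (2 : Cardinal.{0}) ^ ℵ₀ < 2 ^ ℵ_ 1 := by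
  obtain ⟨𝒲, h1, h2⟩ := h
  have : Infinite W := by rw [infinite_iff, StepTree.mk_W]; exact aleph0_lt_aleph_one.le
  let ι := Infinite.natEmbedding W
  obtain ⟨b, hb⟩ := Mark.bdd (countable_range ι)
  have hin : ∀ A : Set ℕ, ι '' A ∈ ⋃ α, 𝒲 α := fun A => by
    obtain ⟨D, hD, h3⟩ := h2 (ι '' A)
    obtain ⟨α, hα, hbα⟩ := hD.isCofinal b
    refine mem_iUnion.2 ⟨α, ?_⟩
    have := (h3 α hα).1
    rwa [inter_eq_left.2] at this
    rintro _ ⟨n, -, rfl⟩
    exact (hb _ ⟨n, rfl⟩).trans_le hbα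
  have k1 : #(Set ℕ) ≤ #(⋃ α, 𝒲 α) := mk_le_of_injective (f := fun A => ⟨ι '' A, hin A⟩)
    fun A B e => image_injective.2 ι.injective (congrArg Subtype.val e)
  have k2 : #(⋃ α, 𝒲 α) ≤ ℵ_ 1 := (mk_iUnion_le _).trans (mul_le_of_le aleph0_lt_aleph_one.le
    StepTree.mk_W.le (ciSup_le' fun α =>
      (le_aleph0_iff_set_countable.2 (h1 α)).trans aleph0_lt_aleph_one.le))
  rw [mk_set, mk_nat] at k1
  exact (k1.trans k2).trans_lt (cantor _)

theorem result (h : DiamondPlus) : (∃ C, Ladder C) ∧ ∀ C, Ladder C →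
    ∀ (T : Type u) [PartialOrder T], Aronszajn T → SuslinUnif T C →
      ∃ A : Set T, IsAntichain (· ≤ ·) A ∧ IsStationary {α | ∃ a ∈ A, a ∈ level T α} := by
  refine ⟨?_, fun C hC T _ hT hU => ?_⟩
  · choose! C hC using Unif.exists_ladder
    exact ⟨C, hC⟩
  obtain ⟨ht, hl, hm, hs, -⟩ := TreeHt.exists_ht hT.1
  replace hl : ∀ t α, t ∈ level T α ↔ ht t = α := hl
  simp only [hl]
  refine Unif.core (wd h) ht hm hs
    (fun α => (hT.2.2.1 α).mono fun t h => (hl _ _).2 h) C (fun α hα => ?_) fun f => ?_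
  · obtain ⟨h1, -, ⟨ψ⟩⟩ := hC α hα
    exact ⟨h1, infinite_coe_iff.1 (Infinite.of_surjective ψ ψ.surjective)⟩
  · obtain ⟨S, ⟨h1, h2, -⟩, φ, h3⟩ := hU f
    simp only [hl] at h3
    refine ⟨S, h1, fun α => ?_, φ, h3⟩
    by_contra hc
    push Not at hc
    exact h2 (((Mark.Iio_c α).biUnion fun β _ => hT.2.2.1 β).mono fun t htS =>
      mem_biUnion (hc t htS) ((hl _ _).2 rfl))

end Pool.Agent.Results.MP_b963f4_lc.NoAlmostSuslin
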